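import Pool.Agent.LCK.Stmts

/-!
# LCK, row LCA: local triviality of the real zeros of a polynomial family

At every point `t₀` of the line there is a small box around `(x₁, t₀)` in which everything can be moved to
any other fibre: clear if the polynomial does not vanish at `(x₁, t₀)`, and by monotonicity if it has a
simple zero there.  Compactness of `[-T, T]` gives the statement, since there are no zeros outside.
-/

set_option autoImplicit false

open Topology

namespace Pool.Agent.LCK.H39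

variable {m : ℕ}

theorem sp_eval (q : Polynomial (MvPolynomial (Fin m) ℝ)) (x : Fin m → ℝ) (t : ℝ) :
    (sp q x).eval t = ∑ i ∈ Finset.range (q.natDegree + 1),
      MvPolynomial.eval x (q.coeff i) * t ^ i := by
  rw [sp, Polynomial.eval_map, Polynomial.eval₂_eq_sum_range]

theorem sp_cont (q : Polynomial (MvPolynomial (Fin m) ℝ)) :
    Continuous fun z : (Fin m → ℝ) × ℝ => (sp q z.1).eval z.2 := by
  have h : (fun z : (Fin m → ℝ) × ℝ => (sp q z.1).eval z.2) = fun z =>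
      ∑ i ∈ Finset.range (q.natDegree + 1), MvPolynomial.eval z.1 (q.coeff i) * z.2 ^ i := by
    funext z
    exact sp_eval q z.1 z.2
  rw [h]
  refine continuous_finsetSum _ fun i _ => ?_
  exact ((MvPolynomial.continuous_eval (q.coeff i)).comp continuous_fst).mul (continuous_snd.pow i)

theorem sp_der (q : Polynomial (MvPolynomial (Fin m) ℝ)) (x : Fin m → ℝ) :
    (sp q x).derivative = sp q.derivative x := by
  rw [sp, sp, Polynomial.derivative_map]

theorem cons_mem (H : MvPolynomial (Fin m) ℝ) (q : Polynomial (MvPolynomial (Fin m) ℝ))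
    (t : ℝ) (x : Fin m → ℝ) :
    (Fin.cons t x : Fin (m + 1) → ℝ) ∈ WW H q ↔
      MvPolynomial.eval x H ≠ 0 ∧ (sp q x).eval t ≠ 0 := by
  simp only [WW, Set.mem_ofPred_eq, Fin.cons_succ, Fin.cons_zero]

theorem cons_cont :
    Continuous fun z : (Fin m → ℝ) × ℝ => (Fin.cons z.2 z.1 : Fin (m + 1) → ℝ) := by
  refine continuous_pi fun i => ?_
  refine Fin.cases ?_ (fun j => ?_) i
  · simpa only [Fin.cons_zero] using continuous_snd
  · have h : Continuous fun z : (Fin m → ℝ) × ℝ => z.1 j :=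
      (continuous_apply j).comp continuous_fst
    simpa only [Fin.cons_succ] using h

theorem joined_of_convex (H : MvPolynomial (Fin m) ℝ) (q : Polynomial (MvPolynomial (Fin m) ℝ))
    (C : Set ((Fin m → ℝ) × ℝ)) (hC : Convex ℝ C)
    (hsub : ∀ z ∈ C, MvPolynomial.eval z.1 H ≠ 0 ∧ (sp q z.1).eval z.2 ≠ 0)
    {x x' : Fin m → ℝ} {t t' : ℝ} (h : (x, t) ∈ C) (h' : (x', t') ∈ C) :
    JoinedIn (WW H q) (Fin.cons t x) (Fin.cons t' x') := by
  have h1 : IsPathConnected C := hC.isPathConnected ⟨_, h⟩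
  have h2 : IsPathConnected
      ((fun z : (Fin m → ℝ) × ℝ => (Fin.cons z.2 z.1 : Fin (m + 1) → ℝ)) '' C) :=
    h1.image cons_cont
  have h3 := h2.joinedIn _ (Set.mem_image_of_mem _ h) _ (Set.mem_image_of_mem _ h')
  refine h3.mono ?_
  rintro _ ⟨z, hz, rfl⟩
  exact (cons_mem H q z.2 z.1).2 (hsub z hz)

theorem local_move (H : MvPolynomial (Fin m) ℝ) (q : Polynomial (MvPolynomial (Fin m) ℝ))
    (hG : Good H q) (x₁ : Fin m → ℝ) (hx₁ : MvPolynomial.eval x₁ H ≠ 0) (t₀ : ℝ) :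
    ∃ r : ℝ, 0 < r ∧ ∀ x ∈ Metric.ball x₁ r, ∀ x' ∈ Metric.ball x₁ r, ∀ t ∈ Metric.ball t₀ r,
      (sp q x).eval t ≠ 0 → ∃ τ : ℝ, (sp q x').eval τ ≠ 0 ∧
        JoinedIn (WW H q) (Fin.cons t x) (Fin.cons τ x') := by
  have hH : ∀ᶠ z : (Fin m → ℝ) × ℝ in 𝓝 (x₁, t₀), MvPolynomial.eval z.1 H ≠ 0 :=
    ((MvPolynomial.continuous_eval H).comp continuous_fst).continuousAt.eventually_ne hx₁
  by_cases h0 : (sp q x₁).eval t₀ = 0
  · have hd : (sp q.derivative x₁).eval t₀ ≠ 0 := by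
      have h := (hG x₁ hx₁).2 t₀ h0
      rwa [sp_der] at h
    set σ : ℝ := (sp q.derivative x₁).eval t₀ with hσ
    have hD : ∀ᶠ z : (Fin m → ℝ) × ℝ in 𝓝 (x₁, t₀), 0 < σ * (sp q.derivative z.1).eval z.2 := by
      have hc : Continuous fun z : (Fin m → ℝ) × ℝ => σ * (sp q.derivative z.1).eval z.2 :=
        continuous_const.mul (sp_cont q.derivative)
      refine hc.continuousAt.eventually (lt_mem_nhds ?_)
      exact mul_self_pos.2 hd
    obtain ⟨r, hr, hb⟩ := Metric.eventually_nhds_iff_ball.1 (hD.and hH)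
    have hbox : ∀ x ∈ Metric.ball x₁ r, ∀ t ∈ Set.Ioo (t₀ - r) (t₀ + r),
        0 < σ * (sp q.derivative x).eval t ∧ MvPolynomial.eval x H ≠ 0 := by
      intro x hx t ht
      apply hb (x, t)
      rw [← ball_prod_same]
      refine ⟨hx, ?_⟩
      rw [Real.ball_eq_Ioo]
      exact ht
    have hmono : ∀ x ∈ Metric.ball x₁ r,
        StrictMonoOn (fun t => σ * (sp q x).eval t) (Set.Ioo (t₀ - r) (t₀ + r)) := by
      intro x hx
      refine strictMonoOn_of_deriv_pos (convex_Ioo _ _)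
        ((continuous_const.mul (sp q x).continuous).continuousOn) ?_
      intro t ht
      rw [interior_Ioo] at ht
      rw [(((sp q x).hasDerivAt t).const_mul σ).deriv, sp_der]
      exact (hbox x hx t ht).1
    have hlo : σ * (sp q x₁).eval (t₀ - r / 2) < 0 := by
      have h := hmono x₁ (Metric.mem_ball_self hr) (a := t₀ - r / 2) (b := t₀)
        ⟨by linarith, by linarith⟩ ⟨by linarith, by linarith⟩ (by linarith)
      simpa only [h0, mul_zero] using h
    have hhi : 0 < σ * (sp q x₁).eval (t₀ + r / 2) := by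
      have h := hmono x₁ (Metric.mem_ball_self hr) (a := t₀) (b := t₀ + r / 2)
        ⟨by linarith, by linarith⟩ ⟨by linarith, by linarith⟩ (by linarith)
      simpa only [h0, mul_zero] using h
    have hcx : ∀ τ : ℝ, Continuous fun x : Fin m → ℝ => σ * (sp q x).eval τ := by
      intro τ
      exact continuous_const.mul
        ((sp_cont q).comp (continuous_id.prodMk (continuous_const (y := τ))))
    have e1 : ∀ᶠ x in 𝓝 x₁, σ * (sp q x).eval (t₀ - r / 2) < 0 :=
      (hcx _).continuousAt.eventually (gt_mem_nhds hlo)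
    have e2 : ∀ᶠ x in 𝓝 x₁, 0 < σ * (sp q x).eval (t₀ + r / 2) :=
      (hcx _).continuousAt.eventually (lt_mem_nhds hhi)
    obtain ⟨ρ, hρ, hρb⟩ := Metric.eventually_nhds_iff_ball.1 (e1.and e2)
    refine ⟨min ρ (r / 2), lt_min hρ (by linarith), ?_⟩
    intro x hx x' hx' t ht hne
    have hsub1 : Metric.ball x₁ (min ρ (r / 2)) ⊆ Metric.ball x₁ ρ :=
      Metric.ball_subset_ball (min_le_left _ _)
    have hsub2 : Metric.ball x₁ (min ρ (r / 2)) ⊆ Metric.ball x₁ r :=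
      Metric.ball_subset_ball ((min_le_right _ _).trans (by linarith))
    have ht2 : t ∈ Set.Ioo (t₀ - r / 2) (t₀ + r / 2) := by
      rw [← Real.ball_eq_Ioo]
      exact Metric.ball_subset_ball (min_le_right _ _) ht
    have hσ0 : σ ≠ 0 := hd
    have key : ∀ τ ∈ Set.Icc (t₀ - r / 2) (t₀ + r / 2),
        (∀ y ∈ Metric.ball x₁ (min ρ (r / 2)), (sp q y).eval τ ≠ 0) →
        (∀ s ∈ segment ℝ t τ, (sp q x).eval s ≠ 0) →
        ∃ τ : ℝ, (sp q x').eval τ ≠ 0 ∧
          JoinedIn (WW H q) (Fin.cons t x) (Fin.cons τ x') := by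
      intro τ hτ hy hs
      have hτ2 : τ ∈ Set.Ioo (t₀ - r) (t₀ + r) := ⟨by linarith [hτ.1], by linarith [hτ.2]⟩
      refine ⟨τ, hy x' hx', ?_⟩
      have j1 : JoinedIn (WW H q) (Fin.cons t x) (Fin.cons τ x) := by
        refine joined_of_convex H q ({x} ×ˢ segment ℝ t τ)
          ((convex_singleton x).prod (convex_segment t τ)) ?_
          ⟨rfl, left_mem_segment ℝ t τ⟩ ⟨rfl, right_mem_segment ℝ t τ⟩
        rintro ⟨y, s⟩ ⟨h1, h2⟩
        have h1' : y = x := h1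
        subst h1'
        exact ⟨(hbox y (hsub2 hx) τ hτ2).2, hs s h2⟩
      have j2 : JoinedIn (WW H q) (Fin.cons τ x) (Fin.cons τ x') := by
        refine joined_of_convex H q (Metric.ball x₁ (min ρ (r / 2)) ×ˢ {τ})
          ((convex_ball _ _).prod (convex_singleton τ)) ?_ ⟨hx, rfl⟩ ⟨hx', rfl⟩
        rintro ⟨y, s⟩ ⟨h1, h2⟩
        have h2' : s = τ := h2
        subst h2'
        exact ⟨(hbox y (hsub2 h1) s hτ2).2, hy y h1⟩
      exact j1.trans j2
    have hmx := hmono x (hsub2 hx)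
    rcases lt_or_gt_of_ne (mul_ne_zero hσ0 hne) with hneg | hpos
    · refine key (t₀ - r / 2) ⟨le_rfl, by linarith⟩ ?_ ?_
      · intro y hy h
        have h2 := (hρb y (hsub1 hy)).1
        rw [h, mul_zero] at h2
        exact lt_irrefl _ h2
      · intro s hs h
        rw [segment_symm, segment_eq_Icc ht2.1.le] at hs
        have h2 := hmx.monotoneOn (a := s) (b := t) ⟨by linarith [hs.1], by linarith [hs.2, ht2.2]⟩
          ⟨by linarith [ht2.1], by linarith [ht2.2]⟩ hs.2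
        have h3 : σ * (sp q x).eval s ≤ σ * (sp q x).eval t := h2
        rw [h, mul_zero] at h3
        exact absurd h3 (not_le.2 hneg)
    · refine key (t₀ + r / 2) ⟨by linarith, le_rfl⟩ ?_ ?_
      · intro y hy h
        have h2 := (hρb y (hsub1 hy)).2
        rw [h, mul_zero] at h2
        exact lt_irrefl _ h2
      · intro s hs h
        rw [segment_eq_Icc ht2.2.le] at hs
        have h2 := hmx.monotoneOn (a := t) (b := s) ⟨by linarith [ht2.1], by linarith [ht2.2]⟩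
          ⟨by linarith [hs.1, ht2.1], by linarith [hs.2]⟩ hs.1
        have h3 : σ * (sp q x).eval t ≤ σ * (sp q x).eval s := h2
        rw [h, mul_zero] at h3
        exact absurd h3 (not_le.2 hpos)
  · have h1 : ∀ᶠ z : (Fin m → ℝ) × ℝ in 𝓝 (x₁, t₀), (sp q z.1).eval z.2 ≠ 0 :=
      (sp_cont q).continuousAt.eventually_ne h0
    obtain ⟨r, hr, hb⟩ := Metric.eventually_nhds_iff_ball.1 (h1.and hH)
    have hbox : ∀ x ∈ Metric.ball x₁ r, ∀ t ∈ Metric.ball t₀ r,
        (sp q x).eval t ≠ 0 ∧ MvPolynomial.eval x H ≠ 0 := by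
      intro x hx t ht
      apply hb (x, t)
      rw [← ball_prod_same]
      exact ⟨hx, ht⟩
    refine ⟨r, hr, fun x hx x' hx' t ht _ => ⟨t, (hbox x' hx' t ht).1, ?_⟩⟩
    refine joined_of_convex H q (Metric.ball x₁ r ×ˢ {t})
      ((convex_ball _ _).prod (convex_singleton t)) ?_ ⟨hx, rfl⟩ ⟨hx', rfl⟩
    rintro ⟨y, s⟩ ⟨h1, h2⟩
    have h2' : s = t := h2
    subst h2'
    exact ⟨(hbox y h1 s ht).2, (hbox y h1 s ht).1⟩

theorem no_zero_far (q : Polynomial (MvPolynomial (Fin m) ℝ)) (x₁ : Fin m → ℝ)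
    (h : MvPolynomial.eval x₁ q.leadingCoeff ≠ 0) :
    ∃ T r : ℝ, 0 < r ∧ ∀ x ∈ Metric.ball x₁ r, ∀ t : ℝ, T ≤ |t| → (sp q x).eval t ≠ 0 := by
  have h0 : (sp q.reverse x₁).eval 0 ≠ 0 := by
    rw [← Polynomial.coeff_zero_eq_eval_zero, sp, Polynomial.coeff_map,
      Polynomial.coeff_zero_reverse]
    exact h
  have h1 : ∀ᶠ z : (Fin m → ℝ) × ℝ in 𝓝 (x₁, 0), (sp q.reverse z.1).eval z.2 ≠ 0 :=
    (sp_cont q.reverse).continuousAt.eventually_ne h0
  obtain ⟨r, hr, hb⟩ := Metric.eventually_nhds_iff_ball.1 h1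
  refine ⟨2 / r, r, hr, ?_⟩
  intro x hx t ht
  have hT : 0 < 2 / r := by positivity
  have ht0 : t ≠ 0 := by
    intro h
    rw [h, abs_zero] at ht
    linarith
  have : Invertible t := invertibleOfNonzero ht0
  have h2 := Polynomial.eval₂_reverse_mul_pow (MvPolynomial.eval x) t q
  rw [sp, Polynomial.eval_map, ← h2]
  refine mul_ne_zero ?_ (pow_ne_zero _ ht0)
  rw [← Polynomial.eval_map]
  refine hb (x, ⅟t) ?_
  rw [← ball_prod_same]
  refine ⟨hx, ?_⟩
  rw [Metric.mem_ball, dist_zero_right, Real.norm_eq_abs, invOf_eq_inv, abs_inv]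
  have h3 : |t|⁻¹ ≤ (2 / r)⁻¹ := inv_anti₀ hT ht
  rw [inv_div] at h3
  linarith

theorem lca : LCAStmt := by
  intro m H q hG x₁ hx₁
  obtain ⟨T, r, hr, hT⟩ := no_zero_far q x₁ (hG x₁ hx₁).1
  have hH : ∀ᶠ x in 𝓝 x₁, MvPolynomial.eval x H ≠ 0 :=
    (MvPolynomial.continuous_eval H).continuousAt.eventually_ne hx₁
  obtain ⟨ρ, hρ, hρb⟩ := Metric.eventually_nhds_iff_ball.1 hH
  have hcomp : ∀ᶠ x in 𝓝 x₁, ∀ t ∈ Set.Icc (-T) T,
      ((sp q x).eval t ≠ 0 → ∃ t₁ : ℝ, (sp q x₁).eval t₁ ≠ 0 ∧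
        JoinedIn (WW H q) (Fin.cons t x) (Fin.cons t₁ x₁)) ∧
      ((sp q x₁).eval t ≠ 0 → ∃ t' : ℝ, (sp q x).eval t' ≠ 0 ∧
        JoinedIn (WW H q) (Fin.cons t' x) (Fin.cons t x₁)) := by
    refine isCompact_Icc.eventually_forall_of_forall_eventually ?_
    intro t₀ _
    obtain ⟨s, hs, hmv⟩ := local_move H q hG x₁ hx₁ t₀
    have hmem : Metric.ball (x₁, t₀) s ∈ 𝓝 (x₁, t₀) := Metric.ball_mem_nhds _ hs
    filter_upwards [hmem] with z hz
    rw [← ball_prod_same] at hz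
    obtain ⟨hz1, hz2⟩ := hz
    refine ⟨fun h => hmv z.1 hz1 x₁ (Metric.mem_ball_self hs) z.2 hz2 h, fun h => ?_⟩
    obtain ⟨τ, h1, h2⟩ := hmv x₁ (Metric.mem_ball_self hs) z.1 hz1 z.2 hz2 h
    exact ⟨τ, h1, h2.symm⟩
  have hfar : ∀ x ∈ Metric.ball x₁ (min r ρ), ∀ t : ℝ, T ≤ |t| →
      (sp q x).eval t ≠ 0 ∧ JoinedIn (WW H q) (Fin.cons t x) (Fin.cons t x₁) := by
    intro x hx t ht
    have hs1 : Metric.ball x₁ (min r ρ) ⊆ Metric.ball x₁ r :=
      Metric.ball_subset_ball (min_le_left _ _)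
    have hs2 : Metric.ball x₁ (min r ρ) ⊆ Metric.ball x₁ ρ :=
      Metric.ball_subset_ball (min_le_right _ _)
    refine ⟨hT x (hs1 hx) t ht, ?_⟩
    refine joined_of_convex H q (Metric.ball x₁ (min r ρ) ×ˢ {t})
      ((convex_ball _ _).prod (convex_singleton t)) ?_ ⟨hx, rfl⟩
      ⟨Metric.mem_ball_self (lt_min hr hρ), rfl⟩
    rintro ⟨y, s⟩ ⟨h1, h2⟩
    have h2' : s = t := h2
    subst h2'
    exact ⟨hρb y (hs2 h1), hT y (hs1 h1) s ht⟩
  filter_upwards [hcomp, Metric.ball_mem_nhds x₁ (lt_min hr hρ)] with x hx hxb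
  have hx₁b : x₁ ∈ Metric.ball x₁ (min r ρ) := Metric.mem_ball_self (lt_min hr hρ)
  constructor
  · intro t ht
    rcases le_or_gt T |t| with h | h
    · exact ⟨t, (hfar x₁ hx₁b t h).1, (hfar x hxb t h).2⟩
    · exact (hx t ⟨by linarith [(abs_lt.1 h).1], (abs_lt.1 h).2.le⟩).1 ht
  · intro t ht
    rcases le_or_gt T |t| with h | h
    · exact ⟨t, (hfar x hxb t h).1, (hfar x hxb t h).2⟩
    · exact (hx t ⟨by linarith [(abs_lt.1 h).1], (abs_lt.1 h).2.le⟩).2 ht

end Pool.Agent.LCK.H39
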