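import Pool.Agent.LCK.Stmts

/-!
# LCK, row PDN: the nonvanishing set of a nonzero real polynomial is dense
-/

set_option autoImplicit false

open Topology

namespace Pool.Agent.LCK.H39

theorem pdn : PDNStmt := by
  intro m P hP
  rw [Metric.dense_iff]
  intro x r hr
  by_contra hne
  apply hP
  refine MvPolynomial.funext_set (fun i => Set.Ioo (x i - r / 2) (x i + r / 2)) ?_ ?_
  · intro i
    exact Set.Ioo_infinite (by linarith)
  · intro y hy
    rw [map_zero]
    by_contra h0
    apply hne
    refine ⟨y, ?_, h0⟩
    rw [Metric.mem_ball, dist_pi_lt_iff hr]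
    intro i
    have h1 := hy i (Set.mem_univ i)
    simp only [Set.mem_Ioo] at h1
    rw [Real.dist_eq, abs_lt]
    constructor <;> linarith [h1.1, h1.2]

end Pool.Agent.LCK.H39
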